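import Pool.Agent.Y305.WD.Stm
set_option autoImplicit false
open Filter Topology Set
open scoped ENNReal NNReal
namespace Pool.Agent.Y305.WD
universe u

theorem der_closed (K : Type u) [TopologicalSpace K] [T2Space K] (n : ℕ) : IsClosed (der K n) := by
  induction n with
  | zero => exact isClosed_univ
  | succ n ih => rw [der_succ]; exact isClosed_derivedSet _

theorem der_finite (K : Type u) [TopologicalSpace K] [CompactSpace K] [T2Space K] (n : ℕ)
    (h : der K (n + 1) = ∅) : (der K n).Finite := by
  by_contra hinf
  obtain ⟨x, hx⟩ := (show (der K n).Infinite from hinf).exists_accPt_principal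
  rw [der_succ] at h
  have : x ∈ derivedSet (der K n) := hx
  rw [h] at this
  exact this

theorem der_sub (K : Type u) [TopologicalSpace K] (P : Set K) (n : ℕ) : ∀ (x : P), x ∈ der P n →
    (x : K) ∈ der K n := by
  induction n with
  | zero => intro x _; exact mem_univ _
  | succ n ih =>
    intro x hx
    rw [der_succ] at hx ⊢
    change AccPt x (𝓟 (der P n)) at hx
    change AccPt (x : K) (𝓟 (der K n))
    rw [accPt_iff_nhds] at hx ⊢
    intro V hV
    obtain ⟨y, ⟨hyV, hyD⟩, hyx⟩ := hx (Subtype.val ⁻¹' V) (continuous_subtype_val.continuousAt.preimage_mem_nhds hV)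
    exact ⟨y, ⟨hyV, ih y hyD⟩, fun hc => hyx (Subtype.ext hc)⟩

theorem der_countable (K : Type u) [MetricSpace K] [CompactSpace K] (n : ℕ) (h : der K n = ∅) :
    Countable K := by
  have key : ∀ i : ℕ, (der K i \ der K (i + 1)).Countable := by
    intro i
    rw [der_succ]
    have hd : DiscreteTopology ↥(der K i \ derivedSet (der K i)) := by
      rw [discreteTopology_subtype_iff]
      intro x hx
      have h1 : ¬ AccPt x (𝓟 (der K i)) := hx.2
      rw [AccPt, not_neBot] at h1
      exact le_bot_iff.1 (h1 ▸ inf_le_inf_left _ (principal_mono.2 sdiff_subset))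
    have : SecondCountableTopology K := inferInstance
    have h2 : Countable ↥(der K i \ derivedSet (der K i)) :=
      TopologicalSpace.separableSpace_iff_countable.1 inferInstance
    exact countable_coe_iff.1 h2
  have hcov : (univ : Set K) ⊆ ⋃ i, (der K i \ der K (i + 1)) := by
    intro x _
    by_contra hx
    rw [mem_iUnion] at hx
    push Not at hx
    have : ∀ i, x ∈ der K i := by
      intro i
      induction i with
      | zero => exact mem_univ _
      | succ i ih =>
        by_contra hn
        exact hx i ⟨ih, hn⟩
    have := this n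
    rw [h] at this
    exact this
  exact countable_univ_iff.1 ((countable_iUnion key).mono hcov)

theorem cnt : S_CNT.{u} :=
  ⟨fun K _ _ n h => der_countable K n h, fun K _ _ _ n h => der_finite K n h,
    fun K _ _ n => der_closed K n, fun K _ P n x hx => der_sub K P n x hx⟩

end Pool.Agent.Y305.WD
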