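import Mathlib

/-! Pointwise null sequences of functions with many patterns, on compact spaces with nonempty
iterated derived sets. -/

set_option autoImplicit false

open Filter Topology Set
open scoped NNReal

namespace Pool.Agent.Y305.WD

/-- the `n`-th Cantor-Bendixson derivative of the space -/
def der (K : Type*) [TopologicalSpace K] (n : ℕ) : Set K := derivedSet^[n] univ

theorem der_succ (K : Type*) [TopologicalSpace K] (n : ℕ) : der K (n + 1) = derivedSet (der K n) := by
  rw [der, Function.iterate_succ_apply']; rfl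

theorem der_zero (K : Type*) [TopologicalSpace K] : der K 0 = univ := rfl

/-- disjoint open sets which meet `D` and accumulate at a point of `derivedSet D` -/
theorem exists_disjoint {K : Type*} [TopologicalSpace K] [T2Space K] (D : Set K) (x : K)
    (hx : x ∈ derivedSet D) (U : Set K) (hU : IsOpen U) (hxU : x ∈ U) :
    ∃ P : ℕ → Set K, (∀ k, IsOpen (P k)) ∧ (∀ k, P k ⊆ U) ∧ (∀ k, (P k ∩ D).Nonempty) ∧
      ∀ j k, j ≠ k → Disjoint (P j) (P k) := by
  have hstep : ∀ V : {V : Set K // IsOpen V ∧ x ∈ V}, ∃ q : Set K × {V : Set K // IsOpen V ∧ x ∈ V},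
      IsOpen q.1 ∧ q.1 ⊆ V.1 ∧ q.2.1 ⊆ V.1 ∧ (q.1 ∩ D).Nonempty ∧ Disjoint q.1 q.2.1 := by
    rintro ⟨V, hV, hxV⟩
    have h1 : AccPt x (𝓟 D) := hx
    rw [accPt_iff_nhds] at h1
    obtain ⟨y, ⟨hyV, hyD⟩, hyx⟩ := h1 V (hV.mem_nhds hxV)
    obtain ⟨P, Q, hP, hQ, hyP, hxQ, hPQ⟩ := t2_separation hyx
    refine ⟨(P ∩ V, ⟨Q ∩ V, hQ.inter hV, hxQ, hxV⟩), hP.inter hV, inter_subset_right,
      inter_subset_right, ⟨y, ⟨hyP, hyV⟩, hyD⟩, ?_⟩
    exact hPQ.mono inter_subset_left inter_subset_left
  choose q hq1 hq2 hq3 hq4 hq5 using hstep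
  let V : ℕ → {V : Set K // IsOpen V ∧ x ∈ V} := fun k =>
    Nat.rec ⟨U, hU, hxU⟩ (fun _ v => (q v).2) k
  have hV0 : (V 0).1 = U := rfl
  have hVs : ∀ k, V (k + 1) = (q (V k)).2 := fun k => rfl
  have hanti : ∀ k, (V (k + 1)).1 ⊆ (V k).1 := fun k => by rw [hVs]; exact hq3 _
  have hanti' : ∀ j k, j ≤ k → (V k).1 ⊆ (V j).1 := by
    intro j k hjk
    induction k, hjk using Nat.le_induction with
    | base => exact subset_rfl
    | succ k _ ih => exact (hanti k).trans ih
  have hlt : ∀ j k, j < k → Disjoint (q (V j)).1 (q (V k)).1 := by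
    intro j k hjk
    have h1 : (q (V k)).1 ⊆ (V (j + 1)).1 := (hq2 (V k)).trans (hanti' (j + 1) k hjk)
    rw [hVs] at h1
    exact (hq5 (V j)).mono_right h1
  refine ⟨fun k => (q (V k)).1, fun k => hq1 _, fun k => ?_, fun k => hq4 _, fun j k hjk => ?_⟩
  · exact (hq2 (V k)).trans (hV0 ▸ hanti' 0 k (Nat.zero_le k))
  · rcases lt_or_gt_of_ne hjk with h | h
    · exact hlt j k h
    · exact (hlt k j h).symm

/-- the functions -/
theorem exists_e_der {K : Type*} [TopologicalSpace K] [CompactSpace K] [T2Space K] (h : ℕ) :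
    ∀ U : Set K, IsOpen U → (U ∩ der K h).Nonempty → ∃ e : ℕ → C(K, ℝ≥0), (∀ m t, e m t ≤ 1) ∧
      (∀ t, ∃ N : ℕ, ∀ m, N ≤ m → e m t = 0) ∧ (∀ m t, t ∉ U → e m t = 0) ∧
      ∀ u : Finset ℕ, u.card ≤ h → ∃ t ∈ U, ∀ m ∈ u, e m t = 1 := by
  induction h with
  | zero =>
    rintro U - ⟨x, hx, -⟩
    refine ⟨fun _ => 0, fun m t => zero_le_one, fun t => ⟨0, fun m _ => rfl⟩, fun m t _ => rfl,
      fun u hu => ⟨x, hx, fun m hm => ?_⟩⟩
    rw [Finset.card_eq_zero.1 (Nat.le_zero.1 hu)] at hm
    exact absurd hm (Finset.notMem_empty m)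
  | succ h ih =>
    rintro U hU ⟨x, hxU, hxD⟩
    rw [der_succ] at hxD
    obtain ⟨P, hPo, hPU, hPD, hPd⟩ := exists_disjoint (der K h) x hxD U hU hxU
    have h1 : ∀ k, ∃ (f : C(K, ℝ≥0)) (e : ℕ → C(K, ℝ≥0)), (∀ t, f t ≤ 1) ∧
        (∀ t, t ∉ P k → f t = 0) ∧ (∀ m t, e m t ≤ 1) ∧ (∀ t, ∃ N : ℕ, ∀ m, N ≤ m → e m t = 0) ∧
        (∀ m t, t ∉ P k → e m t = 0) ∧
        ∀ u : Finset ℕ, u.card ≤ h → ∃ t ∈ P k, f t = 1 ∧ ∀ m ∈ u, e m t = 1 := by
      intro k
      obtain ⟨y, hyP, hyD⟩ := hPD k
      obtain ⟨W, hWo, hyW', hWP⟩ := normal_exists_closure_subset (isClosed_singleton (x := y))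
        (hPo k) (singleton_subset_iff.2 hyP)
      have hyW : y ∈ W := singleton_subset_iff.1 hyW'
      obtain ⟨f, hf0, hf1, hf⟩ := exists_continuous_zero_one_of_isClosed
        (hPo k).isClosed_compl (isClosed_closure (s := W)) (by
          rw [Set.disjoint_left]; exact fun t ht hc => ht (hWP hc))
      obtain ⟨e, he1, he2, he3, he4⟩ := ih W hWo ⟨y, hyW, hyD⟩
      refine ⟨⟨fun t => Real.toNNReal (f t), continuous_real_toNNReal.comp f.continuous⟩, e,
        fun t => ?_, fun t ht => ?_, he1, he2, fun m t ht => he3 m t fun hc => ht (hWP (subset_closure hc)),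
        fun u hu => ?_⟩
      · change Real.toNNReal (f t) ≤ 1
        rw [Real.toNNReal_le_one]; exact (hf t).2
      · change Real.toNNReal (f t) = 0
        rw [hf0 ht]; simp
      · obtain ⟨t, ht, hte⟩ := he4 u hu
        refine ⟨t, hWP (subset_closure ht), ?_, hte⟩
        change Real.toNNReal (f t) = 1
        rw [hf1 (subset_closure ht)]; simp
    choose f e hf1 hf0 he1 he2 he0 hpat using h1
    -- at a point of `P k` only the index `k` matters
    have hin : ∀ k t, t ∈ P k → ∀ m, (f m + ∑ j ∈ Finset.range m, e j m) t =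
        (if m = k then f k t else 0) + if k < m then e k m t else 0 := by
      intro k t ht m
      have hout : ∀ j, j ≠ k → t ∉ P j := fun j hj hc =>
        Set.disjoint_left.1 (hPd j k hj) hc ht
      rw [ContinuousMap.add_apply, ContinuousMap.sum_apply]
      congr 1
      · split_ifs with hmk
        · rw [hmk]
        · exact hf0 m t (hout m hmk)
      · split_ifs with hkm
        · rw [Finset.sum_eq_single k]
          · exact fun j _ hj => he0 j m t (hout j hj)
          · exact fun hn => absurd (Finset.mem_range.2 hkm) hn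
        · refine Finset.sum_eq_zero fun j hj => he0 j m t (hout j ?_)
          rw [Finset.mem_range] at hj
          omega
    have hnot : ∀ t, (∀ k, t ∉ P k) → ∀ m, (f m + ∑ j ∈ Finset.range m, e j m) t = 0 := by
      intro t ht m
      rw [ContinuousMap.add_apply, ContinuousMap.sum_apply, hf0 m t (ht m), zero_add]
      exact Finset.sum_eq_zero fun j _ => he0 j m t (ht j)
    refine ⟨fun m => f m + ∑ j ∈ Finset.range m, e j m, fun m t => ?_, fun t => ?_,
      fun m t ht => ?_, fun u hu => ?_⟩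
    · by_cases hk : ∃ k, t ∈ P k
      · obtain ⟨k, hk⟩ := hk
        rw [hin k t hk m]
        split_ifs with a b
        · omega
        · rw [add_zero]; exact hf1 k t
        · rw [zero_add]; exact he1 k m t
        · rw [add_zero]; exact zero_le_one
      · push Not at hk
        rw [hnot t hk m]; exact zero_le_one
    · by_cases hk : ∃ k, t ∈ P k
      · obtain ⟨k, hk⟩ := hk
        obtain ⟨N, hN⟩ := he2 k t
        refine ⟨max N (k + 1), fun m hm => ?_⟩
        rw [hin k t hk m, if_neg (by have := le_max_right N (k + 1); omega),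
          hN m ((le_max_left _ _).trans hm)]
        simp
      · push Not at hk
        exact ⟨0, fun m _ => hnot t hk m⟩
    · exact hnot t (fun k hk => ht (hPU k hk)) m
    · rcases u.eq_empty_or_nonempty with rfl | hne
      · exact ⟨x, hxU, fun m hm => absurd hm (Finset.notMem_empty m)⟩
      · set k := u.min' hne with hk
        have hku : k ∈ u := Finset.min'_mem u hne
        obtain ⟨t, htP, htf, hte⟩ := hpat k (u.erase k) (by
          rw [Finset.card_erase_of_mem hku]; omega)
        refine ⟨t, hPU k htP, fun m hm => ?_⟩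
        rw [hin k t htP m]
        by_cases hmk : m = k
        · rw [if_pos hmk, if_neg (by omega), htf, add_zero]
        · have hlt : k < m := lt_of_le_of_ne (Finset.min'_le u m hm) (Ne.symm hmk)
          rw [if_neg hmk, if_pos hlt, zero_add]
          exact hte m (Finset.mem_erase.2 ⟨hmk, hm⟩)

/-- a compact space which maps onto a space whose derived set is everything has nonempty iterated
derived sets -/
theorem der_onto {K : Type*} [TopologicalSpace K] [CompactSpace K] [T2Space K]
    (ψ : C(K, unitInterval)) (hψ : Function.Surjective ψ) (n : ℕ) :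
    ∀ y : unitInterval, ∃ x ∈ der K n, ψ x = y := by
  induction n with
  | zero => intro y; obtain ⟨x, hx⟩ := hψ y; exact ⟨x, mem_univ _, hx⟩
  | succ n ih =>
    intro y
    have hperf : Preperfect (univ : Set unitInterval) :=
      isPreconnected_univ.preperfect_of_nontrivial ⟨0, mem_univ _, 1, mem_univ _, zero_ne_one⟩
    have hy : AccPt y (𝓟 (univ : Set unitInterval)) := hperf y (mem_univ _)
    choose s hs hsψ using ih
    have hne : NeBot (𝓝[≠] y) := by
      have := hy
      rwa [AccPt, principal_univ, inf_top_eq] at this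
    obtain ⟨x, -, hx⟩ := (isCompact_univ (X := K)).exists_mapClusterPt_of_frequently
      (l := 𝓝[≠] y) (f := s) (Frequently.of_forall fun _ => mem_univ _)
    have hψx : ψ x = y := by
      have h1 : MapClusterPt (ψ x) (𝓝[≠] y) (fun z => ψ (s z)) :=
        hx.continuousAt_comp (ψ.continuous.continuousAt)
      have h2 : (fun z => ψ (s z)) = id := funext hsψ
      rw [h2] at h1
      have h3 : ClusterPt (ψ x) (𝓝 y) := by
        have h4 : ClusterPt (ψ x) (𝓝[≠] y) := by
          rw [MapClusterPt, map_id] at h1; exact h1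
        exact h4.mono nhdsWithin_le_nhds
      exact (eq_of_nhds_neBot h3).symm ▸ rfl
    refine ⟨x, ?_, hψx⟩
    rw [der_succ]
    change AccPt x (𝓟 (der K n))
    rw [accPt_iff_nhds]
    intro V hV
    have h5 : ∃ᶠ z in 𝓝[≠] y, s z ∈ V := mapClusterPt_iff_frequently.1 hx V hV
    obtain ⟨z, hzV, hz⟩ := (h5.and_eventually (self_mem_nhdsWithin)).exists
    refine ⟨s z, ⟨hzV, hs z⟩, fun hc => hz ?_⟩
    have := congrArg ψ hc
    rw [hsψ, hψx] at this
    exact this

end Pool.Agent.Y305.WD
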