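import Pool.Agent.Y305.WD.Step

/-! Assembly of the positive part of project WD. -/

set_option autoImplicit false

open Filter Topology Set
open scoped ENNReal NNReal
open Pool.Agent.H86R3 Pool.Agent.H86R3.Wnc

namespace Pool.Agent.Y305.WD

universe u

/-- the constants -/
noncomputable def cst (n : ℕ) : ℝ := 3 * 2 ^ n - 3

theorem cst_nonneg (n : ℕ) : 0 ≤ cst n := by
  have : (1 : ℝ) ≤ 2 ^ n := one_le_pow₀ (by norm_num)
  unfold cst; linarith

theorem cst_succ (n : ℕ) : cst (n + 1) = 2 * cst n + 3 := by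
  unfold cst; rw [pow_succ]; ring

theorem Pos.mono {K : Type u} [TopologicalSpace K] [CompactSpace K] {C C' : ℝ} (h : Pos K C)
    (hC : C ≤ C') : Pos K C' := by
  intro ι a M ε hε hM hN
  obtain ⟨b, h1, h2⟩ := h ι a M ε hε hM hN
  exact ⟨b, fun i => (h1 i).trans (by gcongr), h2⟩

theorem pos_height (hG : S_GLUE.{u}) (hC : S_CNT.{u}) (hP : S_PART.{u}) (n : ℕ) :
    ∀ (K : Type u) [MetricSpace K] [CompactSpace K], der K (n + 1) = ∅ → Pos K (cst n) := by
  induction n with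
  | zero =>
    intro K _ _ hK ι a M ε hε hM _
    have hfin : (univ : Set K).Finite := hC.2.1 K 0 hK
    have : Finite K := finite_univ_iff.1 hfin
    have hd : DiscreteTopology K := inferInstance
    refine ⟨a, fun i => by rw [sub_self, norm_zero]; unfold cst; norm_num, fun U => ?_⟩
    have hz : ∀ p, ∃ z, Tendsto (fun i => a i p) U (𝓝 z) := fun p =>
      ulim U _ M fun i => ((a i).norm_coe_le_norm p).trans (hM i)
    choose z hz using hz
    exact ⟨⟨z, continuous_of_discreteTopology⟩, hz⟩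
  | succ n ih =>
    intro K _ _ hK
    have hcount : Countable K := hC.1 K (n + 2) hK
    have hF : (der K (n + 1)).Finite := hC.2.1 K (n + 1) hK
    obtain ⟨P, h1, h2, h3, h4, h5⟩ := hP K (der K (n + 1)) hF.isClosed
    have hc : ∀ j, CompactSpace (P j) := fun j =>
      isCompact_iff_compactSpace.1 (h1 j).isClosed.isCompact
    rw [cst_succ]
    refine step hG K (der K (n + 1)) hF P h1 h2 h3 h4 h5 hc (cst n) (cst_nonneg n) fun j => ?_
    refine ih (P j) ?_
    rw [eq_empty_iff_forall_notMem]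
    intro x hx
    exact Set.disjoint_left.1 (h2 j) x.2 (hC.2.2.2 K (P j) (n + 1) x hx)

/-- upper bound for the De Blasi measure -/
theorem upper (hG : S_GLUE.{u}) (hC : S_CNT.{u}) (hP : S_PART.{u}) (hWC : S_WC.{u})
    (hWK : S_WK.{u}) (K : Type u) [MetricSpace K] [CompactSpace K] (n : ℕ)
    (hK : der K (n + 1) = ∅) (A : Set C(K, ℂ)) (hne : A.Nonempty) (hA : Bornology.IsBounded A) :
    deBlasi A ≤ ENNReal.ofReal (3 * 2 ^ n) * wk A := by
  have hpos := pos_height hG hC hP n K hK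
  have hcount : Countable K := hC.1 K (n + 1) hK
  obtain ⟨M, hM⟩ := hA.exists_norm_le
  have hc0 : (0 : ℝ) < 3 * 2 ^ n := by positivity
  have key : ∀ ε : ℝ, wk A < ENNReal.ofReal ε →
      deBlasi A ≤ ENNReal.ofReal (3 * 2 ^ n) * ENNReal.ofReal ε := by
    intro ε hε
    have hε0 : 0 < ε := by
      by_contra h
      rw [ENNReal.ofReal_of_nonpos (not_lt.1 h)] at hε
      exact absurd hε not_lt_bot
    have hN := hWK K A M ε hM hε
    obtain ⟨b, hb1, hb2⟩ := hpos A (fun a : A => (a : C(K, ℂ))) M ε hε0 (fun a => hM a a.2) hN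
    have hbM : ∀ i, ‖b i‖ ≤ cst n * ε + M := fun i => by
      calc ‖b i‖ = ‖(b i - (i : C(K, ℂ))) + (i : C(K, ℂ))‖ := by rw [sub_add_cancel]
        _ ≤ _ := (norm_add_le _ _).trans (add_le_add (hb1 i) (hM i i.2))
    obtain ⟨L, hL, hbL⟩ := hWC K A b _ hbM hb2
    have hLne : L.Nonempty := by
      obtain ⟨a, ha⟩ := hne
      exact ⟨b ⟨a, ha⟩, hbL _⟩
    refine iInf_le_of_le L (iInf_le_of_le hLne (iInf_le_of_le hL ?_))
    rw [excess_le_iff]
    intro a ha
    refine (Metric.infEDist_le_edist_of_mem (hbL ⟨a, ha⟩)).trans ?_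
    rw [edist_dist, dist_comm, dist_eq_norm, ← ENNReal.ofReal_mul hc0.le]
    refine ENNReal.ofReal_le_ofReal ((hb1 ⟨a, ha⟩).trans ?_)
    unfold cst
    nlinarith
  by_contra hlt
  rw [not_le] at hlt
  have hne0 : ENNReal.ofReal (3 * 2 ^ n) ≠ 0 := by
    rw [Ne, ENNReal.ofReal_eq_zero, not_le]; exact hc0
  have hnetop : ENNReal.ofReal (3 * 2 ^ n) ≠ ⊤ := ENNReal.ofReal_ne_top
  have h1 : wk A < deBlasi A / ENNReal.ofReal (3 * 2 ^ n) := by
    rw [ENNReal.lt_div_iff_mul_lt (Or.inl hne0) (Or.inl hnetop), mul_comm]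
    exact hlt
  obtain ⟨ε, hε0, hε1, hε2⟩ := ENNReal.lt_iff_exists_real_btwn.mp h1
  have h2 := key ε hε1
  rw [ENNReal.lt_div_iff_mul_lt (Or.inl hne0) (Or.inl hnetop), mul_comm] at hε2
  exact absurd h2 (not_le.2 hε2)

/-- the classification for compact metrizable spaces -/
theorem classification (hG : S_GLUE.{u}) (hC : S_CNT.{u}) (hP : S_PART.{u}) (hWC : S_WC.{u})
    (hWK : S_WK.{u}) (K : Type u) [TopologicalSpace K] [CompactSpace K] [T2Space K]
    (hm : TopologicalSpace.MetrizableSpace K) :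
    ((∃ c : ℝ≥0, ∀ A : Set C(K, ℂ), A.Nonempty → Bornology.IsBounded A →
      deBlasi A ≤ (c : ℝ≥0∞) * wk A) ↔ ∃ n : ℕ, der K n = ∅) ∧
    ∀ n : ℕ, der K (n + 1) = ∅ → ∀ A : Set C(K, ℂ), A.Nonempty → Bornology.IsBounded A →
      deBlasi A ≤ ENNReal.ofReal (3 * 2 ^ n) * wk A := by
  let _ : MetricSpace K := TopologicalSpace.metrizableSpaceMetric K
  have h1 : ∀ n : ℕ, der K (n + 1) = ∅ → ∀ A : Set C(K, ℂ), A.Nonempty →
      Bornology.IsBounded A → deBlasi A ≤ ENNReal.ofReal (3 * 2 ^ n) * wk A :=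
    fun n hn A hne hA => upper hG hC hP hWC hWK K n hn A hne hA
  refine ⟨⟨?_, ?_⟩, h1⟩
  · rintro ⟨c, hc⟩
    by_contra hcon
    push Not at hcon
    obtain ⟨A, h2, h3, h4, -⟩ := infinite_height K
      (fun n => hcon n) c
    exact absurd (hc A h2 h3) (not_le.2 h4)
  · rintro ⟨n, hn⟩
    have hn1 : der K (n + 1) = ∅ := by
      rw [der_succ, hn, eq_empty_iff_forall_notMem]
      intro x hx
      have h2 : AccPt x (𝓟 (∅ : Set K)) := hx
      rw [accPt_iff_nhds] at h2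
      obtain ⟨y, ⟨-, hy⟩, -⟩ := h2 univ univ_mem
      exact hy
    refine ⟨Real.toNNReal (3 * 2 ^ n), fun A hne hA => ?_⟩
    exact h1 n hn1 A hne hA

end Pool.Agent.Y305.WD
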