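import Pool.Agent.H86R3.Wnc3
import Pool.Agent.Y305.WD.Der

/-! The negative part: spaces of large Cantor-Bendixson height. -/

set_option autoImplicit false

open Filter Topology Set
open scoped ENNReal NNReal
open Pool.Agent.H86R3 Pool.Agent.H86R3.Wnc

namespace Pool.Agent.Y305.WD

universe u

theorem level (K : Type u) [TopologicalSpace K] [CompactSpace K] [T2Space K] (n : ℕ)
    (hK : (der K (n + 1)).Nonempty) : ∃ A : Set C(K, ℂ), A.Nonempty ∧ Bornology.IsBounded A ∧
      wk A ≤ ENNReal.ofReal (1 / 2) ∧ ENNReal.ofReal (n / 2) ≤ deBlasi A := by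
  obtain ⟨e, he, he0', -, hpts'⟩ := exists_e_der (K := K) (n + 1) univ isOpen_univ
    (by rwa [univ_inter])
  have he0 : ∀ t, Tendsto (fun m => e m t) atTop (𝓝 0) := by
    intro t
    obtain ⟨N, hN⟩ := he0' t
    refine tendsto_const_nhds.congr' ?_
    filter_upwards [eventually_ge_atTop N] with m hm
    exact (hN m hm).symm
  have hpts : ∀ u : Finset ℕ, u.card ≤ n + 1 → ∃ t, ∀ m ∈ u, e m t = 1 := by
    intro u hu
    obtain ⟨t, -, ht⟩ := hpts' u hu
    exact ⟨t, ht⟩
  have hbdd : Bornology.IsBounded (AA e (n + 1) 0 []) := by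
    rw [isBounded_iff_forall_norm_le]
    refine ⟨(n + 1 : ℕ), ?_⟩
    rintro _ ⟨s, hs, rfl⟩
    rw [ContinuousMap.norm_le _ (by positivity)]
    intro t
    have h1 := FF_le he s t
    have h2 := EE_length (n + 1) 0 [] s hs
    rw [List.length_nil, zero_add] at h2
    rw [h2] at h1
    change ‖toC (FF e s) t‖ ≤ _
    rw [toC_apply, Complex.norm_real, Real.norm_eq_abs, abs_of_nonneg (NNReal.coe_nonneg _)]
    exact_mod_cast h1
  have hne : (AA e (n + 1) 0 []).Nonempty := by
    have : ∀ (k a : ℕ) (s : List ℕ), (EE k a s).Nonempty := by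
      intro k
      induction k with
      | zero => intro a s; exact ⟨s, rfl⟩
      | succ k ih =>
        intro a s
        obtain ⟨s', hs'⟩ := ih (a + 1) ((a + 1) :: s)
        exact ⟨s', a + 1, Nat.lt_succ_self a, hs'⟩
    exact (this (n + 1) 0 []).image _
  exact ⟨AA e (n + 1) 0 [], hne, hbdd, (excess_le_iff _ _ _).mpr (wk_small he he0 (n + 1) 0 []),
    lower he0 n hpts⟩

theorem infinite_height (K : Type u) [TopologicalSpace K] [CompactSpace K] [T2Space K]
    (hK : ∀ n, (der K n).Nonempty) (c : ℝ≥0) : ∃ A : Set C(K, ℂ), A.Nonempty ∧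
      Bornology.IsBounded A ∧ (c : ℝ≥0∞) * wk A < deBlasi A ∧ (c : ℝ≥0∞) * wck A < deBlasi A := by
  obtain ⟨n, hn⟩ := exists_nat_gt (c : ℝ)
  obtain ⟨A, h1, h2, h3, h4⟩ := level K n (hK (n + 1))
  have hmid : (c : ℝ≥0∞) * ENNReal.ofReal (1 / 2) < ENNReal.ofReal (n / 2) := by
    rw [← ENNReal.ofReal_coe_nnreal, ← ENNReal.ofReal_mul (NNReal.coe_nonneg c)]
    rw [ENNReal.ofReal_lt_ofReal_iff_of_nonneg (by positivity)]
    linarith
  have h5 : (c : ℝ≥0∞) * wk A < deBlasi A := (mul_le_mul_right h3 _).trans_lt (hmid.trans_le h4)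
  exact ⟨A, h1, h2, h5, (mul_le_mul_right (wck_le_wk h2) _).trans_lt h5⟩

end Pool.Agent.Y305.WD
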