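import Pool.Agent.Y305.WD.Stm

/-! The inductive step of project WD. -/

set_option autoImplicit false

open Filter Topology Set
open scoped ENNReal NNReal
open Pool.Agent.H86R3 Pool.Agent.H86R3.Wnc

namespace Pool.Agent.Y305.WD

universe u

theorem ulim {ι : Type u} (U : Ultrafilter ι) (f : ι → ℂ) (M : ℝ) (hf : ∀ i, ‖f i‖ ≤ M) :
    ∃ z, Tendsto f U (𝓝 z) := by
  obtain ⟨z, -, hz⟩ := (isCompact_closedBall (0 : ℂ) M).ultrafilter_le_nhds (U.map f) (by
    rw [le_principal_iff]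
    change f ⁻¹' Metric.closedBall 0 M ∈ U
    exact univ_mem' fun i => by
      rw [mem_preimage, Metric.mem_closedBall, dist_zero_right]; exact hf i)
  exact ⟨z, hz⟩

/-- the soft threshold on `ℂ` -/
noncomputable def sig (τ : ℝ) (z : ℂ) : ℂ := (max (‖z‖ - τ) 0 / max ‖z‖ τ) • z

theorem sig_cont (τ : ℝ) (hτ : 0 < τ) : Continuous (sig τ) := by
  unfold sig
  refine Continuous.smul (Continuous.div ((continuous_norm.sub continuous_const).max
    continuous_const) (continuous_norm.max continuous_const) fun z => ?_) continuous_id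
  exact (lt_max_of_lt_right hτ).ne'

theorem soft_eq_sig {X : Type u} [TopologicalSpace X] (τ : ℝ) (hτ : 0 < τ) (G : C(X, ℂ)) (t : X) :
    soft τ hτ G t = sig τ (G t) := rfl

theorem step (hG : S_GLUE.{u}) : S_STEP.{u} := by
  intro K _ _ F hF P hPc hPF hPd hPx hPO hc C hC hP ι a M ε hε hM hN
  classical
  -- interpolating functions
  have hu : ∀ p : K, ∃ v : C(K, ℂ), v p = 1 ∧ (∀ q ∈ F, q ≠ p → v q = 0) ∧ ∀ x, ‖v x‖ ≤ 1 := by
    intro p
    obtain ⟨f, hf0, hf1, hf⟩ := exists_continuous_zero_one_of_isClosed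
      (hF.subset (sdiff_subset (s := F) (t := {p}))).isClosed (isClosed_singleton (x := p))
      disjoint_sdiff_left
    refine ⟨⟨fun x => ((f x : ℝ) : ℂ), Complex.continuous_ofReal.comp f.continuous⟩, ?_, ?_, ?_⟩
    · change ((f p : ℝ) : ℂ) = 1
      rw [hf1 (mem_singleton p)]; simp
    · intro q hq hqp
      change ((f q : ℝ) : ℂ) = 0
      rw [hf0 ⟨hq, hqp⟩]; simp
    · intro x
      change ‖((f x : ℝ) : ℂ)‖ ≤ 1
      rw [Complex.norm_real, Real.norm_eq_abs, abs_of_nonneg (hf x).1]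
      exact (hf x).2
  choose v hv1 hv0 hvn using hu
  set T : Finset K := hF.toFinset with hT
  have hTm : ∀ p, p ∈ T ↔ p ∈ F := fun p => hF.mem_toFinset
  let E : ι → C(K, ℂ) := fun i => ∑ p ∈ T, a i p • v p
  have hE : ∀ i x, E i x = ∑ p ∈ T, a i p * v p x := by
    intro i x
    simp only [E, ContinuousMap.sum_apply, ContinuousMap.smul_apply, smul_eq_mul]
  let a0 : ι → C(K, ℂ) := fun i => a i - E i
  have ha0 : ∀ i x, a0 i x = a i x - ∑ p ∈ T, a i p * v p x := by
    intro i x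
    rw [← hE]; rfl
  have haM : ∀ i x, ‖a i x‖ ≤ M := fun i x => ((a i).norm_coe_le_norm x).trans (hM i)
  have ha0F : ∀ i, ∀ p ∈ F, a0 i p = 0 := by
    intro i p hp
    rw [ha0, Finset.sum_eq_single p]
    · rw [hv1, mul_one, sub_self]
    · intro q hq hqp
      rw [hv0 q p hp (Ne.symm hqp), mul_zero]
    · exact fun hn => absurd ((hTm p).2 hp) hn
  have ha0M : ∀ i x, ‖a0 i x‖ ≤ M + T.card * M := by
    intro i x
    rw [ha0]
    refine (norm_sub_le _ _).trans (add_le_add (haM i x) ?_)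
    refine (norm_sum_le _ _).trans ?_
    calc ∑ p ∈ T, ‖a i p * v p x‖ ≤ ∑ _p ∈ T, M := by
          refine Finset.sum_le_sum fun p _ => ?_
          rw [norm_mul]
          calc ‖a i p‖ * ‖v p x‖ ≤ ‖a i p‖ * 1 := by gcongr; exact hvn p x
            _ ≤ M := by rw [mul_one]; exact haM i p
      _ = T.card * M := by rw [Finset.sum_const, nsmul_eq_mul]
  -- near continuous functions
  have hN0 : ∀ U : Ultrafilter ι, ∃ g : C(K, ℂ), ∀ (x : K) (w : ℂ),
      Tendsto (fun i => a0 i x) U (𝓝 w) → ‖w - g x‖ ≤ ε := by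
    intro U
    obtain ⟨g, hg⟩ := hN U
    have hz : ∀ p, ∃ z, Tendsto (fun i => a i p) U (𝓝 z) := fun p =>
      ulim U _ M fun i => haM i p
    choose z hz using hz
    refine ⟨g - ∑ p ∈ T, z p • v p, fun x w hw => ?_⟩
    have h1 : Tendsto (fun i => a i x) U (𝓝 (w + ∑ p ∈ T, z p * v p x)) := by
      have h2 : Tendsto (fun i => ∑ p ∈ T, a i p * v p x) U (𝓝 (∑ p ∈ T, z p * v p x)) :=
        tendsto_finsetSum _ fun p _ => (hz p).mul_const _
      refine (hw.add h2).congr fun i => ?_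
      rw [ha0, sub_add_cancel]
    have h3 := hg x _ h1
    have h4 : (g - ∑ p ∈ T, z p • v p) x = g x - ∑ p ∈ T, z p * v p x := by
      simp only [ContinuousMap.sub_apply, ContinuousMap.sum_apply, ContinuousMap.smul_apply,
        smul_eq_mul]
    rw [h4]
    convert h3 using 2
    ring
  choose g0 hg0 using hN0
  have hJU : ∀ U : Ultrafilter ι, ∃ J : ℕ, ∀ j, J ≤ j → ∀ x ∈ P j, ∀ w,
      Tendsto (fun i => a0 i x) U (𝓝 w) → ‖w‖ ≤ 3 * ε := by
    intro U
    have hO : IsOpen {x | ‖g0 U x‖ < 2 * ε} := isOpen_lt (g0 U).continuous.norm continuous_const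
    obtain ⟨J, hJ⟩ := hPO _ hO (by
      intro p hp
      have h1 := hg0 U p 0 (by
        refine tendsto_const_nhds.congr fun i => ?_
        rw [ha0F i p hp])
      rw [zero_sub, norm_neg] at h1
      exact lt_of_le_of_lt h1 (by linarith))
    refine ⟨J, fun j hj x hx w hw => ?_⟩
    have h1 := hg0 U x w hw
    have h2 : ‖g0 U x‖ < 2 * ε := hJ j hj hx
    calc ‖w‖ = ‖(w - g0 U x) + g0 U x‖ := by rw [sub_add_cancel]
      _ ≤ ‖w - g0 U x‖ + ‖g0 U x‖ := norm_add_le _ _
      _ ≤ 3 * ε := by linarith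
  have hJi : ∀ i, ∃ J : ℕ, ∀ j, J ≤ j → ∀ x ∈ P j, ‖a0 i x‖ ≤ ε := by
    intro i
    have hO : IsOpen {x | ‖a0 i x‖ < ε} := isOpen_lt (a0 i).continuous.norm continuous_const
    obtain ⟨J, hJ⟩ := hPO _ hO (by
      intro p hp
      have h1 := ha0F i p hp
      change ‖a0 i p‖ < ε
      rw [h1, norm_zero]; exact hε)
    exact ⟨J, fun j hj x hx => le_of_lt (hJ j hj hx)⟩
  -- the restricted families
  have hb : ∀ j, ∃ b : ι → C(P j, ℂ), (∀ i, ‖b i - (a0 i).restrict (P j)‖ ≤ C * ε) ∧ Reg b := by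
    intro j
    refine hP j ι (fun i => (a0 i).restrict (P j)) (max (M + T.card * M) 0) ε hε (fun i => ?_) ?_
    · rw [ContinuousMap.norm_le _ (le_max_right _ _)]
      exact fun x => (ha0M i x).trans (le_max_left _ _)
    · intro U
      exact ⟨(g0 U).restrict (P j), fun x w hw => hg0 U x w hw⟩
  choose b hb1 hb2 using hb
  have hbx : ∀ j i (x : P j), ‖b j i x - a0 i x‖ ≤ C * ε := by
    intro j i x
    have h1 := (b j i - (a0 i).restrict (P j)).norm_coe_le_norm x
    exact h1.trans (hb1 j i)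
  have hτ : 0 < (C + 3) * ε := by positivity
  set τ : ℝ := (C + 3) * ε with hτd
  have hGi : ∀ i, ∃ G : C(K, ℂ), (∀ (j : ℕ) (x : P j), G x = soft τ hτ (b j i) x) ∧
      ∀ x, (∀ j, x ∉ P j) → G x = 0 := by
    intro i
    obtain ⟨J, hJ⟩ := hJi i
    refine hG K P hPc hPd (fun j => soft τ hτ (b j i)) J fun j hj => ?_
    ext1 x
    apply soft_eq_zero
    calc ‖b j i x‖ = ‖(b j i x - a0 i x) + a0 i x‖ := by rw [sub_add_cancel]
      _ ≤ ‖b j i x - a0 i x‖ + ‖a0 i x‖ := norm_add_le _ _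
      _ ≤ C * ε + ε := add_le_add (hbx j i x) (hJ j hj x x.2)
      _ ≤ τ := by rw [hτd]; nlinarith
  choose G hG1 hG2 using hGi
  refine ⟨fun i => G i + E i, fun i => ?_, fun U => ?_⟩
  · have h1 : G i + E i - a i = G i - a0 i := by simp only [a0]; abel
    rw [h1, ContinuousMap.norm_le _ (by positivity)]
    intro x
    by_cases hx : ∃ j, x ∈ P j
    · obtain ⟨j, hj⟩ := hx
      have h2 := norm_sub_soft_apply τ hτ (b j i) ⟨x, hj⟩
      have h3 := hbx j i ⟨x, hj⟩
      have h4 : (G i - a0 i) x = -(b j i ⟨x, hj⟩ - soft τ hτ (b j i) ⟨x, hj⟩) +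
          (b j i ⟨x, hj⟩ - a0 i x) := by
        rw [ContinuousMap.sub_apply, hG1 i j ⟨x, hj⟩]; ring
      rw [h4]
      refine (norm_add_le _ _).trans ?_
      rw [norm_neg]
      calc _ ≤ τ + C * ε := add_le_add h2 h3
        _ = (2 * C + 3) * ε := by rw [hτd]; ring
    · push Not at hx
      have hxF : x ∈ F := by
        by_contra hn
        obtain ⟨j, hj⟩ := hPx x hn
        exact hx j hj
      rw [ContinuousMap.sub_apply, hG2 i x hx, ha0F i x hxF, sub_zero, norm_zero]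
      positivity
  · -- regularity
    have hl : ∀ j, ∃ l : C(P j, ℂ), ∀ x : P j, Tendsto (fun i => b j i x) U (𝓝 (l x)) :=
      fun j => hb2 j U
    choose l hl using hl
    have hz : ∀ p, ∃ z, Tendsto (fun i => a i p) U (𝓝 z) := fun p =>
      ulim U _ M fun i => haM i p
    choose z hz using hz
    obtain ⟨J, hJ⟩ := hJU U
    obtain ⟨GU, hGU1, hGU2⟩ := hG K P hPc hPd (fun j => soft τ hτ (l j)) J (fun j hj => by
      ext1 x
      apply soft_eq_zero
      obtain ⟨w, hw⟩ := ulim U (fun i => a0 i x) _ fun i => ha0M i x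
      have h1 : ‖l j x - w‖ ≤ C * ε :=
        le_of_tendsto ((hl j x).sub hw).norm (Eventually.of_forall fun i => hbx j i x)
      have h2 := hJ j hj x x.2 w hw
      calc ‖l j x‖ = ‖(l j x - w) + w‖ := by rw [sub_add_cancel]
        _ ≤ ‖l j x - w‖ + ‖w‖ := norm_add_le _ _
        _ ≤ C * ε + 3 * ε := add_le_add h1 h2
        _ = τ := by rw [hτd]; ring)
    refine ⟨GU + ∑ p ∈ T, z p • v p, fun x => ?_⟩
    have h4 : (GU + ∑ p ∈ T, z p • v p) x = GU x + ∑ p ∈ T, z p * v p x := by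
      simp only [ContinuousMap.add_apply, ContinuousMap.sum_apply, ContinuousMap.smul_apply,
        smul_eq_mul]
    rw [h4]
    have h5 : ∀ i, (G i + E i) x = G i x + ∑ p ∈ T, a i p * v p x := by
      intro i
      rw [ContinuousMap.add_apply, hE]
    simp only [h5]
    refine Tendsto.add ?_ (tendsto_finsetSum _ fun p _ => (hz p).mul_const _)
    by_cases hx : ∃ j, x ∈ P j
    · obtain ⟨j, hj⟩ := hx
      have h6 : ∀ i, G i x = sig τ (b j i ⟨x, hj⟩) := fun i => by
        rw [← soft_eq_sig τ hτ]; exact hG1 i j ⟨x, hj⟩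
      have h7 : GU x = sig τ (l j ⟨x, hj⟩) := by
        rw [← soft_eq_sig τ hτ]; exact hGU1 j ⟨x, hj⟩
      rw [h7]
      simp only [h6]
      exact ((sig_cont τ hτ).tendsto _).comp (hl j ⟨x, hj⟩)
    · push Not at hx
      rw [hGU2 x hx]
      refine tendsto_const_nhds.congr fun i => ?_
      rw [hG2 i x hx]

end Pool.Agent.Y305.WD
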