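import Pool.Agent.Y305.WD.Neg

/-! Statements of the jobs of project WD (measures of weak noncompactness in `C(K)`, `K` countable
of finite height, MP_ca490d_an). -/

set_option autoImplicit false

open Filter Topology Set
open scoped ENNReal NNReal
open Pool.Agent.H86R3 Pool.Agent.H86R3.Wnc

namespace Pool.Agent.Y305.WD

universe u

/-- the pointwise limits along ultrafilters are within `ε` of continuous functions -/
def Near {K : Type u} [TopologicalSpace K] {ι : Type u} (a : ι → C(K, ℂ)) (ε : ℝ) : Prop :=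
  ∀ U : Ultrafilter ι, ∃ g : C(K, ℂ), ∀ (x : K) (z : ℂ),
    Tendsto (fun i => a i x) U (𝓝 z) → ‖z - g x‖ ≤ ε

/-- the pointwise limits along ultrafilters exist and are continuous -/
def Reg {K : Type u} [TopologicalSpace K] {ι : Type u} (a : ι → C(K, ℂ)) : Prop :=
  ∀ U : Ultrafilter ι, ∃ g : C(K, ℂ), ∀ x : K, Tendsto (fun i => a i x) U (𝓝 (g x))

/-- nearly regular families are near regular families -/
def Pos (K : Type u) [TopologicalSpace K] [CompactSpace K] (C : ℝ) : Prop :=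
  ∀ (ι : Type u) (a : ι → C(K, ℂ)) (M ε : ℝ), 0 < ε → (∀ i, ‖a i‖ ≤ M) → Near a ε →
    ∃ b : ι → C(K, ℂ), (∀ i, ‖b i - a i‖ ≤ C * ε) ∧ Reg b

/-- WD-DCT: bounded pointwise convergent sequences converge weakly -/
def S_DCT : Prop :=
  ∀ (K : Type u) [TopologicalSpace K] [CompactSpace K] [T2Space K] (l : ℕ → C(K, ℂ))
    (g : C(K, ℂ)) (M : ℝ), (∀ n, ‖l n‖ ≤ M) →
    (∀ x, Tendsto (fun n => l n x) atTop (𝓝 (g x))) →
    ∀ φ : StrongDual ℂ C(K, ℂ), Tendsto (fun n => φ (l n)) atTop (𝓝 (φ g))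

/-- WD-WC: regular bounded families lie in weakly compact sets -/
def S_WC : Prop :=
  ∀ (K : Type u) [TopologicalSpace K] [CompactSpace K] [T2Space K] [Countable K] (ι : Type u)
    (b : ι → C(K, ℂ)) (M : ℝ), (∀ i, ‖b i‖ ≤ M) → Reg b →
    ∃ L : Set C(K, ℂ), IsWeaklyCompact L ∧ ∀ i, b i ∈ L

/-- WD-WK: the meaning of `wk` for the pointwise limits -/
def S_WK : Prop :=
  ∀ (K : Type u) [TopologicalSpace K] [CompactSpace K] [T2Space K] (A : Set C(K, ℂ)) (M ε : ℝ),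
    (∀ a ∈ A, ‖a‖ ≤ M) → wk A < ENNReal.ofReal ε → Near (fun a : A => (a : C(K, ℂ))) ε

/-- WD-PART: clopen partition of the complement of a closed set in a countable compact space -/
def S_PART : Prop :=
  ∀ (K : Type u) [MetricSpace K] [CompactSpace K] [Countable K] (F : Set K), IsClosed F →
    ∃ P : ℕ → Set K, (∀ j, IsClopen (P j)) ∧ (∀ j, Disjoint (P j) F) ∧
      (∀ i j, i ≠ j → Disjoint (P i) (P j)) ∧ (∀ x, x ∉ F → ∃ j, x ∈ P j) ∧
      ∀ O : Set K, IsOpen O → F ⊆ O → ∃ J : ℕ, ∀ j, J ≤ j → P j ⊆ O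

/-- WD-CNT: spaces of finite height -/
def S_CNT : Prop :=
  (∀ (K : Type u) [MetricSpace K] [CompactSpace K] (n : ℕ), der K n = ∅ → Countable K) ∧
  (∀ (K : Type u) [TopologicalSpace K] [CompactSpace K] [T2Space K] (n : ℕ),
    der K (n + 1) = ∅ → (der K n).Finite) ∧
  (∀ (K : Type u) [TopologicalSpace K] [T2Space K] (n : ℕ), IsClosed (der K n)) ∧
  ∀ (K : Type u) [TopologicalSpace K] (P : Set K) (n : ℕ) (x : P), x ∈ der P n → (x : K) ∈ der K n

/-- WD-GLUE: glueing functions on disjoint clopen sets -/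
def S_GLUE : Prop :=
  ∀ (K : Type u) [TopologicalSpace K] (P : ℕ → Set K), (∀ j, IsClopen (P j)) →
    (∀ i j, i ≠ j → Disjoint (P i) (P j)) → ∀ (s : ∀ j, C(P j, ℂ)) (J : ℕ),
    (∀ j, J ≤ j → s j = 0) → ∃ G : C(K, ℂ), (∀ (j : ℕ) (x : P j), G x = s j x) ∧
      ∀ x, (∀ j, x ∉ P j) → G x = 0

/-- WD-STEP: the inductive step -/
def S_STEP : Prop :=
  ∀ (K : Type u) [MetricSpace K] [CompactSpace K] (F : Set K), F.Finite → ∀ P : ℕ → Set K,
    (∀ j, IsClopen (P j)) → (∀ j, Disjoint (P j) F) → (∀ i j, i ≠ j → Disjoint (P i) (P j)) →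
    (∀ x, x ∉ F → ∃ j, x ∈ P j) →
    (∀ O : Set K, IsOpen O → F ⊆ O → ∃ J : ℕ, ∀ j, J ≤ j → P j ⊆ O) →
    ∀ (hc : ∀ j, CompactSpace (P j)) (C : ℝ), 0 ≤ C → (∀ j, Pos (P j) C) → Pos K (2 * C + 3)

end Pool.Agent.Y305.WD
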